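import Pool.Agent.Lib.MP_fbfa44_gt.Idx8.Alg

/-!
# A minimal hypersurface of the sphere with parallel second fundamental form

If the covariant derivative `T` of `h` is zero, then `S h2 = S P + t3 h`, where `P` is the
projection to the tangent space and `t3` the trace of the cube of `h`; `t3` is constant and the
matrix `R = S h - S (x nu + nu x) + t3 nu nu` is constant.
-/

namespace Pool.MP_fbfa44_gt.Onto25

open Finset Pool.MP_fbfa44_gt.Idx8

variable {ι R : Type*} [Fintype ι] [DecidableEq ι] [CommRing R] (C : Calc ι R)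

/-- the trace of the cube of `h` -/
def t3 : R := ∑ i, ∑ j, C.h i j * C.h2 i j

/-- the trace of the fourth power of `h` -/
def t4 : R := ∑ i, ∑ j, C.h2 i j * C.h2 i j

/-- `h` as a matrix -/
def hm : Matrix ι ι R := Matrix.of C.h

theorem h2_eq (i j : ι) : C.h2 i j = (hm C * hm C) i j := by
  simp only [Calc.h2, hm, Matrix.mul_apply, Matrix.of_apply]

theorem h3_eq (i j : ι) : C.h3 i j = (hm C * (hm C * hm C)) i j := by
  rw [Matrix.mul_apply]
  simp only [Calc.h3, h2_eq]
  rfl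

theorem hm_symm : (hm C).transpose = hm C := by
  ext i j
  exact C.symm j i

theorem h3_symm (i j : ι) : C.h3 i j = C.h3 j i := by
  rw [h3_eq, h3_eq]
  have : (hm C * (hm C * hm C)).transpose = hm C * (hm C * hm C) := by
    rw [Matrix.transpose_mul, Matrix.transpose_mul, hm_symm, Matrix.mul_assoc]
  conv_rhs => rw [← this]
  rfl

theorem t4_eq : t4 C = ∑ i, ∑ j, C.h i j * C.h3 i j := by
  have e1 : t4 C = ((hm C * hm C) * (hm C * hm C)).trace := by
    simp only [t4, Matrix.trace, Matrix.diag_apply]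
    refine sum_congr rfl fun i _ => ?_
    rw [Matrix.mul_apply]
    refine sum_congr rfl fun j _ => ?_
    rw [← h2_eq, ← h2_eq, C.h2_symm j i]
  have e2 : ∑ i, ∑ j, C.h i j * C.h3 i j = (hm C * (hm C * (hm C * hm C))).trace := by
    simp only [Matrix.trace, Matrix.diag_apply]
    refine sum_congr rfl fun i _ => ?_
    rw [Matrix.mul_apply]
    refine sum_congr rfl fun j _ => ?_
    rw [← h3_eq, h3_symm C i j]
    rfl
  rw [e1, e2, Matrix.mul_assoc]

/-- the projection to the tangent space -/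
def P (i j : ι) : R := (if i = j then 1 else 0) - C.x i * C.x j - C.nu i * C.nu j

section parallel

variable (hT : ∀ k i j, C.T k i j = 0)

include hT

theorem dh (k i j : ι) : C.d k (C.h i j) =
    - (C.x j * C.h i k) - C.x i * C.h k j + C.nu j * C.h2 i k + C.nu i * C.h2 k j := by
  have h1 := hT k i j
  simp only [Calc.T] at h1
  linear_combination h1

theorem dh2 (k i j : ι) : C.d k (C.h2 i j) =
    - (C.x j * C.h2 i k) - C.x i * C.h2 k j + C.nu j * C.h3 i k + C.nu i * C.h3 k j := by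
  have e0 : C.d k (C.h2 i j) = ∑ l, (C.h i l * C.d k (C.h l j) + C.h l j * C.d k (C.h i l)) := by
    simp only [Calc.h2, map_sum, C.mul]
  have e1 : ∀ l, C.h i l * C.d k (C.h l j) + C.h l j * C.d k (C.h i l) =
      - (C.x j * (C.h i l * C.h l k)) - (C.x l * C.h i l) * C.h k j
        + C.nu j * (C.h i l * C.h2 l k) + (C.nu l * C.h i l) * C.h2 k j
      + (- ((C.x l * C.h l j) * C.h i k) - C.x i * (C.h k l * C.h l j)
        + (C.nu l * C.h l j) * C.h2 i k + C.nu i * (C.h2 k l * C.h l j)) := by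
    intro l
    rw [dh C hT k l j, dh C hT k i l]
    ring
  have e2 : ∑ l, C.h2 k l * C.h l j = C.h3 k j := by
    simp only [Calc.h3, Calc.h2, sum_mul, mul_sum]
    rw [sum_comm]
    exact sum_congr rfl fun a _ => sum_congr rfl fun b _ => by ring
  rw [e0]
  simp only [e1, sum_add_distrib, sum_sub_distrib, sum_neg_distrib, ← mul_sum, ← sum_mul]
  rw [C.xh', C.nh', C.xh, C.nh, e2]
  simp only [Calc.h2, Calc.h3]
  ring

/-- contraction of `h` with `d h` -/
theorem c1 (j : ι) : ∑ a, ∑ i, C.h a i * C.d a (C.h i j) = - (C.x j * C.S) + C.nu j * t3 C := by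
  have e1 : ∀ a i, C.h a i * C.d a (C.h i j) =
      - (C.x j * (C.h a i * C.h a i)) - (C.x i * C.h a i) * C.h a j
        + C.nu j * (C.h a i * C.h2 a i) + (C.nu i * C.h a i) * C.h2 a j := by
    intro a i
    rw [dh C hT a i j, C.symm i a, C.h2_symm i a]
    ring
  simp only [e1, sum_add_distrib, sum_sub_distrib, sum_neg_distrib, ← mul_sum, ← sum_mul,
    C.xh', C.nh', zero_mul, sum_const_zero]
  simp only [Calc.S, t3]
  ring

/-- contraction of `h` with `d h2` -/
theorem c2 (j : ι) : ∑ a, ∑ i, C.h a i * C.d a (C.h2 i j) = - (C.x j * t3 C) + C.nu j * t4 C := by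
  have e1 : ∀ a i, C.h a i * C.d a (C.h2 i j) =
      - (C.x j * (C.h a i * C.h2 a i)) - (C.x i * C.h a i) * C.h2 a j
        + C.nu j * (C.h a i * C.h3 a i) + (C.nu i * C.h a i) * C.h3 a j := by
    intro a i
    rw [dh2 C hT a i j, C.h2_symm i a, h3_symm C i a]
    ring
  simp only [e1, sum_add_distrib, sum_sub_distrib, sum_neg_distrib, ← mul_sum, ← sum_mul,
    C.xh', C.nh', zero_mul, sum_const_zero]
  rw [t4_eq]
  simp only [t3]
  ring

/-- contraction of `h2` with `d h` -/
theorem c3 (j : ι) : ∑ a, ∑ i, C.h2 a i * C.d a (C.h i j) = - (C.x j * t3 C) + C.nu j * t4 C := by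
  have e1 : ∀ a i, C.h2 a i * C.d a (C.h i j) =
      - (C.x j * (C.h a i * C.h2 a i)) - (C.x i * C.h2 a i) * C.h a j
        + C.nu j * (C.h2 a i * C.h2 a i) + (C.nu i * C.h2 a i) * C.h2 a j := by
    intro a i
    rw [dh C hT a i j, C.symm i a, C.h2_symm i a]
    ring
  simp only [e1, sum_add_distrib, sum_sub_distrib, sum_neg_distrib, ← mul_sum, ← sum_mul,
    C.xh2', C.nh2', zero_mul, sum_const_zero]
  simp only [t3, t4]
  ring

theorem c4 (b : ι) : ∑ a, ∑ i, C.h a i * C.d b (C.h i a) = 0 := by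
  have e1 : ∀ a i, C.h a i * C.d b (C.h i a) =
      - ((C.x a * C.h a i) * C.h i b) - (C.x i * C.h a i) * C.h b a
        + (C.nu a * C.h a i) * C.h2 i b + (C.nu i * C.h a i) * C.h2 b a := by
    intro a i
    rw [dh C hT b i a]
    ring
  have e2 : ∀ (w v : ι → R), (∀ j, ∑ i, w i * C.h i j = 0) →
      ∑ a, ∑ i, (w a * C.h a i) * v i = 0 := by
    intro w v hw
    rw [sum_comm]
    refine sum_eq_zero fun i _ => ?_
    rw [← sum_mul, hw, zero_mul]
  simp only [e1, sum_add_distrib, sum_sub_distrib, sum_neg_distrib]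
  rw [e2 C.x _ C.xh, e2 C.nu _ C.nh]
  simp only [← sum_mul, C.xh', C.nh', zero_mul, sum_const_zero]
  ring

theorem c5 (b : ι) : ∑ a, ∑ i, C.h a i * C.d b (C.h2 i a) = 0 := by
  have e1 : ∀ a i, C.h a i * C.d b (C.h2 i a) =
      - ((C.x a * C.h a i) * C.h2 i b) - (C.x i * C.h a i) * C.h2 b a
        + (C.nu a * C.h a i) * C.h3 i b + (C.nu i * C.h a i) * C.h3 b a := by
    intro a i
    rw [dh2 C hT b i a]
    ring
  have e2 : ∀ (w v : ι → R), (∀ j, ∑ i, w i * C.h i j = 0) →
      ∑ a, ∑ i, (w a * C.h a i) * v i = 0 := by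
    intro w v hw
    rw [sum_comm]
    refine sum_eq_zero fun i _ => ?_
    rw [← sum_mul, hw, zero_mul]
  simp only [e1, sum_add_distrib, sum_sub_distrib, sum_neg_distrib]
  rw [e2 C.x _ C.xh, e2 C.nu _ C.nh]
  simp only [← sum_mul, C.xh', C.nh', zero_mul, sum_const_zero]
  ring

/-- the contraction of the second derivatives, first order -/
theorem s1 (b j : ι) : ∑ a, ∑ i, C.h a i * C.d a (C.d b (C.h i j)) =
    C.x j * (C.x b * C.S) - C.x j * (C.nu b * t3 C) - C.h2 b j - C.nu j * (C.x b * t3 C)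
      + C.nu j * (C.nu b * t4 C) - (∑ a, C.h3 a b * C.h a j) - C.S * C.h2 b j := by
  have e1 : ∀ a i, C.h a i * C.d a (C.d b (C.h i j)) =
      - (C.x j * (C.h a i * C.d a (C.h i b))) - C.d a (C.x j) * (C.h a i * C.h i b)
      - (C.x i * C.h a i) * C.d a (C.h b j) - C.h b j * (C.d a (C.x i) * C.h a i)
      + C.nu j * (C.h a i * C.d a (C.h2 i b)) - C.h a j * (C.h a i * C.h2 i b)
      + (C.nu i * C.h a i) * C.d a (C.h2 b j) - C.h2 b j * (C.h a i * C.h a i) := by
    intro a i
    rw [dh C hT b i j]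
    simp only [map_add, map_sub, map_neg, C.mul, C.dn]
    ring
  have e2 : ∑ a, C.d a (C.x j) * C.h2 a b = C.h2 b j := by
    rw [C.h2_symm b j]
    exact C.proj' (fun a => C.h2 a b) j (C.xh2 b) (C.nh2 b)
  have e3 : ∀ a, ∑ i, C.d a (C.x i) * C.h a i = C.h a a := fun a =>
    C.proj (fun i => C.h a i) a (C.xh' a) (C.nh' a)
  simp only [e1, sum_add_distrib, sum_sub_distrib, sum_neg_distrib, ← mul_sum, ← sum_mul,
    C.xh', C.nh', zero_mul, sum_const_zero]
  rw [c1 C hT b, c2 C hT b]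
  have e4 : ∑ a, C.d a (C.x j) * ∑ i, C.h a i * C.h i b = C.h2 b j := e2
  have e5 : ∑ a, C.h a j * ∑ i, C.h a i * C.h2 i b = ∑ a, C.h3 a b * C.h a j :=
    sum_congr rfl fun a _ => mul_comm _ _
  rw [e4, e5, sum_congr rfl fun a _ => e3 a, C.tr]
  simp only [Calc.S]
  ring

theorem s2 (b j : ι) : ∑ a, ∑ i, C.h a i * C.d b (C.d a (C.h i j)) =
    - (P C b j * C.S) - C.h2 b j - t3 C * C.h b j - (∑ a, C.h3 a b * C.h a j) := by
  have e1 : ∀ a i, C.h a i * C.d b (C.d a (C.h i j)) =
      - (C.x j * (C.h a i * C.d b (C.h i a))) - C.d b (C.x j) * (C.h a i * C.h i a)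
      - (C.x i * C.h a i) * C.d b (C.h a j) - C.h a j * (C.d b (C.x i) * C.h a i)
      + C.nu j * (C.h a i * C.d b (C.h2 i a)) - C.h b j * (C.h a i * C.h2 i a)
      + (C.nu i * C.h a i) * C.d b (C.h2 a j) - C.h2 a j * (C.h b i * C.h a i) := by
    intro a i
    rw [dh C hT a i j]
    simp only [map_add, map_sub, map_neg, C.mul, C.dn]
    ring
  have e3 : ∀ a, ∑ i, C.d b (C.x i) * C.h a i = C.h a b := fun a =>
    C.proj (fun i => C.h a i) b (C.xh' a) (C.nh' a)
  simp only [e1, sum_add_distrib, sum_sub_distrib, sum_neg_distrib, ← mul_sum, ← sum_mul,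
    C.xh', C.nh', zero_mul, sum_const_zero]
  rw [c4 C hT b, c5 C hT b]
  have e4 : ∑ a, ∑ i, C.h a i * C.h i a = C.S := by
    simp only [Calc.S]
    exact sum_congr rfl fun a _ => sum_congr rfl fun i _ => by rw [C.symm i a]
  have e5 : ∑ a, ∑ i, C.h a i * C.h2 i a = t3 C := by
    simp only [t3]
    exact sum_congr rfl fun a _ => sum_congr rfl fun i _ => by rw [C.h2_symm i a]
  have e6 : ∑ a, C.h a j * ∑ i, C.d b (C.x i) * C.h a i = C.h2 b j := by
    simp only [e3, Calc.h2]
    exact sum_congr rfl fun a _ => by rw [C.symm a b]; ring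
  have e7 : ∑ a, C.h2 a j * ∑ i, C.h b i * C.h a i = ∑ a, C.h3 a b * C.h a j := by
    have f1 : ∀ a, ∑ i, C.h b i * C.h a i = C.h2 b a := fun a =>
      sum_congr rfl fun i _ => by rw [C.symm a i]
    simp only [f1]
    have f2 : ∑ a, C.h2 a j * C.h2 b a = (hm C * hm C * (hm C * hm C)) b j := by
      rw [Matrix.mul_apply]
      exact sum_congr rfl fun a _ => by rw [← h2_eq, ← h2_eq]; ring
    have f3 : ∑ a, C.h3 a b * C.h a j = (hm C * (hm C * hm C) * hm C) b j := by
      rw [Matrix.mul_apply]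
      exact sum_congr rfl fun a _ => by rw [← h3_eq, h3_symm C a b]; rfl
    rw [f2, f3]
    simp only [Matrix.mul_assoc]
  rw [e4, e5, e6, e7, C.dx]
  simp only [P]
  ring

/-- the quadratic equation of `h` -/
theorem quad (b j : ι) : C.S * C.h2 b j = C.S * P C b j + t3 C * C.h b j := by
  have e1 : ∑ a, ∑ i, C.h a i * (C.d a (C.d b (C.h i j)) - C.d b (C.d a (C.h i j))) =
      C.nu b * (- (C.x j * t3 C) + C.nu j * t4 C) - C.x b * (- (C.x j * C.S) + C.nu j * t3 C) := by
    have f1 : ∀ a i, C.h a i * (C.d a (C.d b (C.h i j)) - C.d b (C.d a (C.h i j))) =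
        C.nu b * (C.h a i * ∑ k, C.h a k * C.d k (C.h i j))
          - (C.nu a * C.h a i) * (∑ k, C.h b k * C.d k (C.h i j))
          - C.x b * (C.h a i * C.d a (C.h i j)) + (C.x a * C.h a i) * C.d b (C.h i j) := by
      intro a i
      rw [C.comm]
      ring
    have e2 : ∀ (w v : ι → R), (∀ j, ∑ i, w i * C.h i j = 0) →
        ∑ a, ∑ i, (w a * C.h a i) * v i = 0 := by
      intro w v hw
      rw [sum_comm]
      refine sum_eq_zero fun i _ => ?_
      rw [← sum_mul, hw, zero_mul]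
    simp only [f1, sum_add_distrib, sum_sub_distrib, ← mul_sum]
    rw [e2 C.nu _ C.nh, e2 C.x _ C.xh, c1 C hT j]
    have f2 : ∑ a, ∑ i, C.h a i * ∑ k, C.h a k * C.d k (C.h i j) =
        ∑ k, ∑ i, C.h2 k i * C.d k (C.h i j) := by
      simp only [Calc.h2, mul_sum, sum_mul]
      rw [sum_comm]
      have g1 : ∀ i, ∑ a, ∑ k, C.h a i * (C.h a k * C.d k (C.h i j)) =
          ∑ k, ∑ a, C.h k a * C.h a i * C.d k (C.h i j) := by
        intro i
        rw [sum_comm]
        exact sum_congr rfl fun k _ => sum_congr rfl fun a _ => by rw [C.symm a k]; ring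
      simp only [g1]
      rw [sum_comm]
    rw [f2, c3 C hT j]
    ring
  have e3 := s1 C hT b j
  have e4 := s2 C hT b j
  simp only [mul_sub, sum_sub_distrib] at e1
  rw [e3, e4] at e1
  linear_combination -e1

theorem d_t3 (k : ι) : C.d k (t3 C) = 0 := by
  have e1 : ∀ i j, C.d k (C.h i j * C.h2 i j) =
      (- ((C.x j * C.h2 i j) * C.h i k) - (C.x i * C.h2 i j) * C.h k j
        + (C.nu j * C.h2 i j) * C.h2 i k + (C.nu i * C.h2 i j) * C.h2 k j)
      + (- ((C.x j * C.h i j) * C.h2 i k) - (C.x i * C.h i j) * C.h2 k j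
        + (C.nu j * C.h i j) * C.h3 i k + (C.nu i * C.h i j) * C.h3 k j) := by
    intro i j
    rw [C.mul, dh C hT k i j, dh2 C hT k i j]
    ring
  have e2 : ∀ (U : ι → ι → R) (w v : ι → R), (∀ j, ∑ i, w i * U i j = 0) →
      ∑ a, ∑ i, (w a * U a i) * v i = 0 := by
    intro U w v hw
    rw [sum_comm]
    refine sum_eq_zero fun i _ => ?_
    rw [← sum_mul, hw, zero_mul]
  simp only [t3, map_sum, e1, sum_add_distrib, sum_sub_distrib, sum_neg_distrib, ← sum_mul,
    C.xh', C.nh', C.xh2', C.nh2', zero_mul, sum_const_zero]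
  rw [e2 C.h2 C.x _ C.xh2, e2 C.h2 C.nu _ C.nh2, e2 C.h C.x _ C.xh, e2 C.h C.nu _ C.nh]
  ring

/-- the matrix `S h - S (x nu + nu x) + t3 nu nu` is constant -/
theorem d_Rm (k i j : ι) : C.d k (C.S * C.h i j - C.S * (C.x i * C.nu j + C.nu i * C.x j)
      + t3 C * (C.nu i * C.nu j)) = 0 := by
  have hS : C.d k C.S = 0 := by
    rw [C.dS k]
    simp only [Calc.q, hT, mul_zero, sum_const_zero]
  have e1 := quad C hT k i
  have e2 := quad C hT k j
  have e3 := quad C hT i k
  simp only [map_add, map_sub, C.mul, hS, d_t3 C hT k, C.dn, C.dx, dh C hT k i j]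
  simp only [P] at e1 e2 e3
  rw [C.h2_symm i k, C.symm i k]
  rw [C.h2_symm i k, C.symm i k] at e3
  linear_combination C.nu i * e2 + C.nu j * e1

end parallel

end Pool.MP_fbfa44_gt.Onto25
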