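import Pool.Agent.Lib.MP_fbfa44_gt.Onto25.Split

/-!
# The classification: from the constant matrix to the product of two round spheres
-/

open Set Filter Topology
open scoped Manifold ContDiff

noncomputable section

namespace PoolOnto25

/-- Row (O2): an isometry adapted to a subspace. -/
theorem adapted {m k l : ℕ} (hkl : k + l = m)
    (V : Submodule ℝ (EuclideanSpace ℝ (Fin (m + 2))))
    (hV : Module.finrank ℝ V = k + 1) (hW : Module.finrank ℝ Vᗮ = l + 1) :
    ∃ L : EuclideanSpace ℝ (Fin (m + 2)) ≃ₗᵢ[ℝ] EuclideanSpace ℝ (Fin (m + 2)),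
      ∀ y, ‖prj V y‖ ^ 2 = ∑ i : Fin (m + 2) with i.val < k + 1, (L y i) ^ 2 ∧
        ‖prj Vᗮ y‖ ^ 2 = ∑ i : Fin (m + 2) with ¬ i.val < k + 1, (L y i) ^ 2 := by
  classical
  set bV : OrthonormalBasis (Fin (k + 1)) ℝ V := (stdOrthonormalBasis ℝ V).reindex (finCongr hV)
  set bW : OrthonormalBasis (Fin (l + 1)) ℝ Vᗮ := (stdOrthonormalBasis ℝ Vᗮ).reindex (finCongr hW)
  set v : Fin (m + 2) → EuclideanSpace ℝ (Fin (m + 2)) := fun i =>
    if h : i.val < k + 1 then (bV ⟨i.val, h⟩ : EuclideanSpace ℝ (Fin (m + 2)))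
    else (bW ⟨i.val - (k + 1), by omega⟩ : EuclideanSpace ℝ (Fin (m + 2))) with hv
  have hv1 : ∀ i (h : i.val < k + 1), v i = bV ⟨i.val, h⟩ := fun i h => by simp only [hv, dif_pos h]
  have hv2 : ∀ i (h : ¬ i.val < k + 1), v i = bW ⟨i.val - (k + 1), by omega⟩ := fun i h => by
    simp only [hv, dif_neg h]
  have hon : Orthonormal ℝ v := by
    constructor
    · intro i
      by_cases h : i.val < k + 1
      · rw [hv1 i h, ← Submodule.coe_norm]; exact bV.orthonormal.1 _
      · rw [hv2 i h, ← Submodule.coe_norm]; exact bW.orthonormal.1 _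
    · intro i j hij
      by_cases h : i.val < k + 1
      · by_cases h' : j.val < k + 1
        · rw [hv1 i h, hv1 j h', ← Submodule.coe_inner]
          apply bV.orthonormal.2
          intro he
          rw [Fin.mk.injEq] at he
          exact hij (Fin.ext he)
        · rw [hv1 i h, hv2 j h']
          exact Submodule.inner_right_of_mem_orthogonal (bV _).2 (bW _).2
      · by_cases h' : j.val < k + 1
        · rw [hv2 i h, hv1 j h']
          exact Submodule.inner_left_of_mem_orthogonal (bV _).2 (bW _).2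
        · rw [hv2 i h, hv2 j h', ← Submodule.coe_inner]
          apply bW.orthonormal.2
          intro he
          rw [Fin.mk.injEq] at he
          exact hij (Fin.ext (by omega))
  have hcard : Fintype.card (Fin (m + 2)) = Module.finrank ℝ (EuclideanSpace ℝ (Fin (m + 2))) := by
    simp
  set b : OrthonormalBasis (Fin (m + 2)) ℝ (EuclideanSpace ℝ (Fin (m + 2))) :=
    (basisOfOrthonormalOfCardEqFinrank hon hcard).toOrthonormalBasis (by simpa using hon) with hb
  have hbv : ∀ i, b i = v i := by intro i; simp [hb]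
  have key : ∀ (W : Submodule ℝ (EuclideanSpace ℝ (Fin (m + 2)))) (p : Fin (m + 2) → Prop)
      [DecidablePred p], (∀ i, p i → v i ∈ W) → (∀ i, ¬ p i → v i ∈ Wᗮ) →
      ∀ y, ‖prj W y‖ ^ 2 = ∑ i : Fin (m + 2) with p i, (b.repr y i) ^ 2 := by
    intro W p _ h1 h2 y
    rw [← b.sum_sq_norm_inner_right (prj W y), Finset.sum_filter]
    refine Finset.sum_congr rfl fun i _ => ?_
    rw [hbv, b.repr_apply_apply, hbv]
    split_ifs with hp
    · have e1 : inner ℝ (v i) (prj W y) = inner ℝ (v i) y := by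
        rw [← inner_prj_prj, prj_of_mem W (h1 i hp)]
        conv_rhs => rw [← prj_add W y, inner_add_right]
        have : inner ℝ (v i) (prj Wᗮ y) = 0 :=
          Submodule.inner_right_of_mem_orthogonal (h1 i hp) (prj_mem Wᗮ y)
        rw [this, add_zero]
      rw [e1, Real.norm_eq_abs, sq_abs]
    · have : inner ℝ (v i) (prj W y) = 0 :=
        Submodule.inner_left_of_mem_orthogonal (prj_mem W y) (h2 i hp)
      rw [this]; simp
  have hVin : ∀ i : Fin (m + 2), i.val < k + 1 → v i ∈ V := fun i h => by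
    rw [hv1 i h]; exact (bV _).2
  have hWin : ∀ i : Fin (m + 2), ¬ i.val < k + 1 → v i ∈ Vᗮ := fun i h => by
    rw [hv2 i h]; exact (bW _).2
  refine ⟨b.repr, fun y => ⟨?_, ?_⟩⟩
  · exact key V (fun i => i.val < k + 1) hVin hWin y
  · refine key Vᗮ (fun i => ¬ i.val < k + 1) hWin (fun i h => ?_) y
    rw [Submodule.orthogonal_orthogonal]
    exact hVin i (not_not.mp h)

end PoolOnto25
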