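import Mathlib

/-!
# Local surjectivity onto a product of two spheres

`V` is a subspace of a finite dimensional inner product space `E`, and
`phi : F -> E` an immersion at `u0`, where `dim F + 2 = dim E`, with
`|P_V phi| = r` and `|P_W phi| = s` near `u0` (`W` the orthogonal complement).
Then every neighbourhood of `u0` is mapped by `phi` onto a relative neighbourhood
of `phi u0` in the set `|P_V y| = r, |P_W y| = s`.
-/

open Set Filter Topology

noncomputable section

namespace PoolOnto25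

variable {E : Type*} [NormedAddCommGroup E] [InnerProductSpace ℝ E] [FiniteDimensional ℝ E]

/-- The orthogonal projection onto `V`, as a map of `E` to `E`. -/
def prj (V : Submodule ℝ E) : E →L[ℝ] E := V.starProjection

/-- The product of two spheres. -/
def prodSphere (V : Submodule ℝ E) (r s : ℝ) : Set E :=
  {y | ‖prj V y‖ = r ∧ ‖prj Vᗮ y‖ = s}

theorem prj_add (V : Submodule ℝ E) (y : E) : prj V y + prj Vᗮ y = y := by
  unfold prj
  exact V.starProjection_add_starProjection_orthogonal y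

theorem prj_mem (V : Submodule ℝ E) (y : E) : prj V y ∈ V :=
  V.starProjection_apply_mem y

theorem prj_of_mem (V : Submodule ℝ E) {y : E} (hy : y ∈ V) : prj V y = y :=
  Submodule.starProjection_eq_self_iff.mpr hy

theorem prj_perp_of_mem (V : Submodule ℝ E) {y : E} (hy : y ∈ V) : prj Vᗮ y = 0 := by
  have h := prj_add V y
  rw [prj_of_mem V hy] at h
  simpa using h

theorem prj_of_mem_perp (V : Submodule ℝ E) {y : E} (hy : y ∈ Vᗮ) : prj V y = 0 := by
  have h := prj_add V y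
  rw [prj_of_mem Vᗮ hy] at h
  simpa using h

theorem inner_prj_perp (V : Submodule ℝ E) (y z : E) :
    inner ℝ (prj V y) (prj Vᗮ z) = 0 :=
  Submodule.inner_right_of_mem_orthogonal (prj_mem V y) (prj_mem Vᗮ z)

theorem inner_prj_prj (V : Submodule ℝ E) (y z : E) :
    inner ℝ (prj V y) (prj V z) = inner ℝ y (prj V z) := by
  have h : inner ℝ (prj Vᗮ y) (prj V z) = 0 := by
    rw [real_inner_comm]; exact inner_prj_perp V z y
  calc inner ℝ (prj V y) (prj V z) = inner ℝ (prj V y + prj Vᗮ y) (prj V z) := by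
        rw [inner_add_left, h, add_zero]
    _ = _ := by rw [prj_add]

variable {F : Type*} [NormedAddCommGroup F] [NormedSpace ℝ F] [FiniteDimensional ℝ F]

theorem local_onto (V : Submodule ℝ E) {r s : ℝ} (hr : 0 < r) (hs : 0 < s)
    {phi : F → E} {u0 : F} (hphi : ContDiffAt ℝ 1 phi u0)
    (hinj : Function.Injective (fderiv ℝ phi u0))
    (hdim : Module.finrank ℝ F + 2 = Module.finrank ℝ E)
    (hVW : ∀ᶠ u in 𝓝 u0, phi u ∈ prodSphere V r s)
    {U : Set F} (hU : U ∈ 𝓝 u0) :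
    ∀ᶠ y in 𝓝 (phi u0), y ∈ prodSphere V r s → y ∈ phi '' U := by
  set G : F × ℝ × ℝ → E := fun q => q.2.1 • prj V (phi q.1) + q.2.2 • prj Vᗮ (phi q.1) with hG
  set D : F →L[ℝ] E := fderiv ℝ phi u0 with hD
  have hst : HasStrictFDerivAt phi D u0 := by
    rw [hD]; exact hphi.hasStrictFDerivAt (by norm_num)
  set y1 : E := prj V (phi u0) with hy1
  set y2 : E := prj Vᗮ (phi u0) with hy2
  have hmem0 : phi u0 ∈ prodSphere V r s := hVW.self_of_nhds
  have hn1 : ‖y1‖ = r := hmem0.1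
  have hn2 : ‖y2‖ = s := hmem0.2
  -- derivative of G
  have hp1 : HasStrictFDerivAt (fun q : F × ℝ × ℝ => prj V (phi q.1))
      (((prj V).comp D).comp (ContinuousLinearMap.fst ℝ F (ℝ × ℝ))) (u0, 1, 1) := by
    have h1 : HasStrictFDerivAt (fun u => prj V (phi u)) ((prj V).comp D) u0 :=
      (prj V).hasStrictFDerivAt.comp u0 hst
    have h0 : HasStrictFDerivAt (Prod.fst : F × ℝ × ℝ → F)
      (ContinuousLinearMap.fst ℝ F (ℝ × ℝ)) ((u0, 1, 1) : F × ℝ × ℝ) := hasStrictFDerivAt_fst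
    exact HasStrictFDerivAt.comp ((u0, 1, 1) : F × ℝ × ℝ) h1 h0
  have hp2 : HasStrictFDerivAt (fun q : F × ℝ × ℝ => prj Vᗮ (phi q.1))
      (((prj Vᗮ).comp D).comp (ContinuousLinearMap.fst ℝ F (ℝ × ℝ))) (u0, 1, 1) := by
    have h1 : HasStrictFDerivAt (fun u => prj Vᗮ (phi u)) ((prj Vᗮ).comp D) u0 :=
      (prj Vᗮ).hasStrictFDerivAt.comp u0 hst
    have h0 : HasStrictFDerivAt (Prod.fst : F × ℝ × ℝ → F)
      (ContinuousLinearMap.fst ℝ F (ℝ × ℝ)) ((u0, 1, 1) : F × ℝ × ℝ) := hasStrictFDerivAt_fst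
    exact HasStrictFDerivAt.comp ((u0, 1, 1) : F × ℝ × ℝ) h1 h0
  have ha : HasStrictFDerivAt (fun q : F × ℝ × ℝ => q.2.1)
      ((ContinuousLinearMap.fst ℝ ℝ ℝ).comp (ContinuousLinearMap.snd ℝ F (ℝ × ℝ)))
      ((u0, 1, 1) : F × ℝ × ℝ) :=
    hasStrictFDerivAt_fst.comp _ hasStrictFDerivAt_snd
  have hb : HasStrictFDerivAt (fun q : F × ℝ × ℝ => q.2.2)
      ((ContinuousLinearMap.snd ℝ ℝ ℝ).comp (ContinuousLinearMap.snd ℝ F (ℝ × ℝ)))
      ((u0, 1, 1) : F × ℝ × ℝ) :=
    hasStrictFDerivAt_snd.comp _ hasStrictFDerivAt_snd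
  have hGd := (ha.smul hp1).add (hb.smul hp2)
  set G' := ((1 : ℝ) • (((prj V).comp D).comp (ContinuousLinearMap.fst ℝ F (ℝ × ℝ)))
      + ((ContinuousLinearMap.fst ℝ ℝ ℝ).comp
          (ContinuousLinearMap.snd ℝ F (ℝ × ℝ))).smulRight y1)
      + ((1 : ℝ) • (((prj Vᗮ).comp D).comp (ContinuousLinearMap.fst ℝ F (ℝ × ℝ)))
      + ((ContinuousLinearMap.snd ℝ ℝ ℝ).comp
          (ContinuousLinearMap.snd ℝ F (ℝ × ℝ))).smulRight y2) with hG'
  have hGd' : HasStrictFDerivAt G G' ((u0, 1, 1) : F × ℝ × ℝ) := hGd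
  have hG'app : ∀ q : F × ℝ × ℝ, G' q = D q.1 + q.2.1 • y1 + q.2.2 • y2 := by
    intro q
    have e := prj_add V (D q.1)
    simp only [hG', add_apply,
      ContinuousLinearMap.comp_apply, ContinuousLinearMap.coe_fst', ContinuousLinearMap.coe_snd',
      ContinuousLinearMap.smulRight_apply, one_smul]
    rw [← e]
    simp only [map_add]
    rw [prj_of_mem V (prj_mem V (D q.1)), prj_of_mem Vᗮ (prj_mem Vᗮ (D q.1)),
      prj_of_mem_perp V (prj_mem Vᗮ (D q.1)), prj_perp_of_mem V (prj_mem V (D q.1))]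
    abel
  -- tangency
  have htan : ∀ (W : Submodule ℝ E) (c : ℝ), (∀ᶠ u in 𝓝 u0, ‖prj W (phi u)‖ = c) →
      ∀ h : F, inner ℝ (D h) (prj W (phi u0)) = 0 := by
    intro W c hc h
    have h1 : HasFDerivAt (fun u => prj W (phi u)) ((prj W).comp D) u0 :=
      ((prj W).hasStrictFDerivAt.comp u0 hst).hasFDerivAt
    have h2 := h1.inner ℝ h1
    have h3 : HasFDerivAt (fun u => inner ℝ (prj W (phi u)) (prj W (phi u)))
        (0 : F →L[ℝ] ℝ) u0 := by
      have : (fun u => inner ℝ (prj W (phi u)) (prj W (phi u))) =ᶠ[𝓝 u0] fun _ => c ^ 2 := by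
        filter_upwards [hc] with u hu
        rw [real_inner_self_eq_norm_sq, hu]
      exact (hasFDerivAt_const (c ^ 2) u0).congr_of_eventuallyEq this
    have h4 := h2.unique h3
    have h5 := congrArg (fun L => L h) h4
    simp only [ContinuousLinearMap.comp_apply, ContinuousLinearMap.prod_apply,
      fderivInnerCLM_apply, zero_apply] at h5
    have h6 : inner ℝ (prj W (D h)) (prj W (phi u0)) = 0 := by
      have : inner ℝ (prj W (phi u0)) (prj W (D h)) = inner ℝ (prj W (D h)) (prj W (phi u0)) :=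
        real_inner_comm _ _
      linarith
    rw [← inner_prj_prj W]; exact h6
  have ht1 := htan V r (hVW.mono fun u hu => hu.1)
  have ht2 := htan Vᗮ s (hVW.mono fun u hu => hu.2)
  have hy12 : inner ℝ y1 y2 = 0 := inner_prj_perp V _ _
  have hG'inj : Function.Injective G' := by
    rw [injective_iff_map_eq_zero]
    intro q hq
    rw [hG'app] at hq
    have e1 : inner ℝ (D q.1 + q.2.1 • y1 + q.2.2 • y2) y1 = 0 := by rw [hq]; simp
    have e2 : inner ℝ (D q.1 + q.2.1 • y1 + q.2.2 • y2) y2 = 0 := by rw [hq]; simp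
    rw [inner_add_left, inner_add_left, inner_smul_left, inner_smul_left, ht1,
      real_inner_self_eq_norm_sq, real_inner_comm, hy12, hn1] at e1
    rw [inner_add_left, inner_add_left, inner_smul_left, inner_smul_left, ht2,
      real_inner_self_eq_norm_sq, hy12, hn2] at e2
    have f1 : q.2.1 = 0 := by
      have : q.2.1 * r ^ 2 = 0 := by simpa using e1
      rcases mul_eq_zero.mp this with h | h
      · exact h
      · exact absurd h (by positivity)
    have f2 : q.2.2 = 0 := by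
      have : q.2.2 * s ^ 2 = 0 := by simpa using e2
      rcases mul_eq_zero.mp this with h | h
      · exact h
      · exact absurd h (by positivity)
    have f3 : q.1 = 0 := by
      rw [f1, f2, zero_smul, zero_smul, add_zero, add_zero] at hq
      exact hinj (by rw [hq, map_zero])
    ext1
    · exact f3
    · ext1
      · exact f1
      · exact f2
  have hdimG : Module.finrank ℝ (F × ℝ × ℝ) = Module.finrank ℝ E := by
    rw [Module.finrank_prod, Module.finrank_prod, Module.finrank_self]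
    omega
  have hker : G'.toLinearMap.ker = ⊥ := LinearMap.ker_eq_bot.mpr hG'inj
  have hrange : G'.toLinearMap.range = ⊤ :=
    LinearMap.range_eq_top.mpr
      ((LinearMap.injective_iff_surjective_of_finrank_eq_finrank hdimG).mp hG'inj)
  have hmap : map G (𝓝 ((u0, 1, 1) : F × ℝ × ℝ)) = 𝓝 (G (u0, 1, 1)) :=
    hGd'.map_nhds_eq_of_surj hrange
  have hG0 : G (u0, 1, 1) = phi u0 := by
    simp only [hG, one_smul]; exact prj_add V _
  rw [hG0] at hmap
  -- the neighbourhood
  have hN : {q : F × ℝ × ℝ | q.1 ∈ U ∧ phi q.1 ∈ prodSphere V r s ∧ 0 < q.2.1 ∧ 0 < q.2.2}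
      ∈ 𝓝 ((u0, 1, 1) : F × ℝ × ℝ) := by
    have c0 : ∀ᶠ u in 𝓝 u0, u ∈ U ∧ phi u ∈ prodSphere V r s := by
      filter_upwards [hU, hVW] with u h1 h2
      exact ⟨h1, h2⟩
    have c1 : ∀ᶠ q : F × ℝ × ℝ in 𝓝 (u0, 1, 1), q.1 ∈ U ∧ phi q.1 ∈ prodSphere V r s :=
      (continuousAt_fst (p := ((u0, 1, 1) : F × ℝ × ℝ))).eventually c0
    have c2 : ∀ᶠ q : F × ℝ × ℝ in 𝓝 (u0, 1, 1), 0 < q.2.1 := by
      have : ContinuousAt (fun q : F × ℝ × ℝ => q.2.1) (u0, 1, 1) := by fun_prop
      exact this.eventually (lt_mem_nhds (by norm_num))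
    have c3 : ∀ᶠ q : F × ℝ × ℝ in 𝓝 (u0, 1, 1), 0 < q.2.2 := by
      have : ContinuousAt (fun q : F × ℝ × ℝ => q.2.2) (u0, 1, 1) := by fun_prop
      exact this.eventually (lt_mem_nhds (by norm_num))
    filter_upwards [c1, c2, c3] with q h1 h2 h3
    exact ⟨h1.1, h1.2, h2, h3⟩
  have him := image_mem_map (m := G) hN
  rw [hmap] at him
  filter_upwards [him] with y hy hyS
  obtain ⟨q, ⟨hqU, hqS, hq1, hq2⟩, hqy⟩ := hy
  have k1 : prj V y = q.2.1 • prj V (phi q.1) := by
    rw [← hqy]; simp only [hG, map_add, map_smul]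
    rw [prj_of_mem V (prj_mem V _), prj_of_mem_perp V (prj_mem Vᗮ _), smul_zero, add_zero]
  have k2 : prj Vᗮ y = q.2.2 • prj Vᗮ (phi q.1) := by
    rw [← hqy]; simp only [hG, map_add, map_smul]
    rw [prj_of_mem Vᗮ (prj_mem Vᗮ _), prj_perp_of_mem V (prj_mem V _), smul_zero, zero_add]
  have l1 : q.2.1 = 1 := by
    have := hyS.1
    rw [k1, norm_smul, hqS.1, Real.norm_eq_abs, abs_of_pos hq1] at this
    exact mul_right_cancel₀ hr.ne' (by rw [this, one_mul])
  have l2 : q.2.2 = 1 := by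
    have := hyS.2
    rw [k2, norm_smul, hqS.2, Real.norm_eq_abs, abs_of_pos hq2] at this
    exact mul_right_cancel₀ hs.ne' (by rw [this, one_mul])
  refine ⟨q.1, hqU, ?_⟩
  rw [← hqy]; simp only [hG, l1, l2, one_smul]
  exact (prj_add V _).symm

end PoolOnto25
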