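import Pool.Agent.Lib.MP_fbfa44_gt.Onto25.Local

/-!
# An immersed compact manifold in a product of two spheres of the same dimension is the product
-/

open Set Filter Topology
open scoped Manifold ContDiff

noncomputable section

namespace PoolOnto25

variable {E : Type*} [NormedAddCommGroup E] [InnerProductSpace ℝ E] [FiniteDimensional ℝ E]

/-- The product of two spheres in complementary subspaces of dimension at least two
is preconnected. -/
theorem isPreconnected_prodSphere (V : Submodule ℝ E) {r s : ℝ} (hr : 0 ≤ r) (hs : 0 ≤ s)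
    (hV : 2 ≤ Module.finrank ℝ V) (hW : 2 ≤ Module.finrank ℝ Vᗮ) :
    IsPreconnected (prodSphere V r s) := by
  have h1 : IsConnected (Metric.sphere (0 : V) r) := by
    apply isConnected_sphere _ _ hr
    rw [← Module.finrank_eq_rank]
    exact_mod_cast hV
  have h2 : IsConnected (Metric.sphere (0 : Vᗮ) s) := by
    apply isConnected_sphere _ _ hs
    rw [← Module.finrank_eq_rank]
    exact_mod_cast hW
  have h3 := (h1.prod h2).isPreconnected.image
    (fun q : V × Vᗮ => (q.1 : E) + (q.2 : E)) (by fun_prop)
  have h4 : prodSphere V r s =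
      (fun q : V × Vᗮ => (q.1 : E) + (q.2 : E)) '' (Metric.sphere 0 r ×ˢ Metric.sphere 0 s) := by
    ext y
    constructor
    · intro hy
      refine ⟨(⟨prj V y, prj_mem V y⟩, ⟨prj Vᗮ y, prj_mem Vᗮ y⟩), ⟨?_, ?_⟩, prj_add V y⟩
      · simpa using hy.1
      · simpa using hy.2
    · rintro ⟨⟨v, w⟩, ⟨hv, hw⟩, rfl⟩
      constructor
      · simp only [map_add]
        rw [prj_of_mem V v.2, prj_of_mem_perp V w.2, add_zero]
        simpa using hv
      · simp only [map_add]
        rw [prj_of_mem Vᗮ w.2, prj_perp_of_mem V v.2, zero_add]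
        simpa using hw
  rw [h4]; exact h3

theorem isClosed_prodSphere (V : Submodule ℝ E) (r s : ℝ) : IsClosed (prodSphere V r s) := by
  apply IsClosed.inter
  · exact isClosed_eq (by fun_prop) continuous_const
  · exact isClosed_eq (by fun_prop) continuous_const

variable {m : ℕ} {M : Type*} [TopologicalSpace M] [ChartedSpace (EuclideanSpace ℝ (Fin m)) M]
  [CompactSpace M] [Nonempty M]

/-- Row (O1): the image of a smooth immersion of a compact `m`-manifold into the product of
two spheres of total dimension `m` is the whole product. -/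
theorem range_eq_prodSphere (V : Submodule ℝ E) {r s : ℝ} (hr : 0 < r) (hs : 0 < s)
    (hV : 2 ≤ Module.finrank ℝ V) (hW : 2 ≤ Module.finrank ℝ Vᗮ)
    (hdim : m + 2 = Module.finrank ℝ E) (x : M → E)
    (hx : ContMDiff (𝓡 m) 𝓘(ℝ, E) ∞ x)
    (himm : ∀ p, Function.Injective (mfderiv (𝓡 m) 𝓘(ℝ, E) x p))
    (hmem : ∀ p, x p ∈ prodSphere V r s) :
    range x = prodSphere V r s := by
  have hsub : range x ⊆ prodSphere V r s := by
    rintro _ ⟨p, rfl⟩; exact hmem p
  have hcl : IsClosed (range x) := (isCompact_range hx.continuous).isClosed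
  -- local surjectivity
  have hloc : ∀ p : M, ∀ᶠ y in 𝓝 (x p), y ∈ prodSphere V r s → y ∈ range x := by
    intro p
    set e := extChartAt (𝓡 m) p with he
    set phi : EuclideanSpace ℝ (Fin m) → E := x ∘ e.symm with hphi
    have hxp : ContMDiffAt (𝓡 m) 𝓘(ℝ, E) ∞ x p := hx p
    have hcd : ContDiffAt ℝ ∞ phi (e p) := by
      have h := (contMDiffAt_iff.mp hxp).2
      simpa [hphi, he, contDiffWithinAt_univ] using h
    have hfd : fderiv ℝ phi (e p) = mfderiv (𝓡 m) 𝓘(ℝ, E) x p := by
      have hmd : MDifferentiableAt (𝓡 m) 𝓘(ℝ, E) x p := hxp.mdifferentiableAt (by simp)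
      rw [hmd.mfderiv]
      simp [hphi, he, writtenInExtChartAt, fderivWithin_univ]
    have hep : e.symm (e p) = p := extChartAt_to_inv (I := 𝓡 m) p
    have hloc' := local_onto V hr hs (phi := phi) (u0 := e p) (hcd.of_le (by simp))
      (by rw [hfd]; exact himm p) (by simpa using hdim)
      (Eventually.of_forall fun u => hmem _) (U := univ) univ_mem
    have : phi (e p) = x p := by simp [hphi, hep]
    rw [this] at hloc'
    filter_upwards [hloc'] with y hy hyS
    obtain ⟨u, -, hu⟩ := hy hyS
    exact ⟨e.symm u, hu⟩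
  -- clopen in the product
  have : PreconnectedSpace (prodSphere V r s) :=
    Subtype.preconnectedSpace (isPreconnected_prodSphere V hr.le hs.le hV hW)
  have hclopen : IsClopen ((Subtype.val : prodSphere V r s → E) ⁻¹' range x) := by
    constructor
    · exact hcl.preimage continuous_subtype_val
    · rw [isOpen_iff_mem_nhds]
      rintro ⟨y, hy⟩ ⟨p, hp⟩
      simp only at hp
      have h1 := hloc p
      rw [hp] at h1
      have h2 : Tendsto (Subtype.val : prodSphere V r s → E) (𝓝 ⟨y, hy⟩) (𝓝 y) :=
        continuous_subtype_val.continuousAt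
      filter_upwards [h2.eventually h1] with z hz
      exact hz z.2
  have huniv : (Subtype.val : prodSphere V r s → E) ⁻¹' range x = univ := by
    apply hclopen.eq_univ
    obtain ⟨p⟩ := ‹Nonempty M›
    exact ⟨⟨x p, hmem p⟩, ⟨p, rfl⟩⟩
  apply Subset.antisymm hsub
  intro y hy
  have : (⟨y, hy⟩ : prodSphere V r s) ∈
      (Subtype.val : prodSphere V r s → E) ⁻¹' range x := by rw [huniv]; trivial
  exact this

end PoolOnto25
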