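import Pool.Agent.Lib.MP_fbfa44_gt.Onto25.Onto

/-!
# The eigenspaces of a symmetric operator with `A ^ 2 = 1 + c A`
-/

open Set Filter Topology

noncomputable section

namespace PoolOnto25

variable {E : Type*} [NormedAddCommGroup E] [InnerProductSpace ℝ E] [FiniteDimensional ℝ E]

theorem trace_prj (V : Submodule ℝ E) :
    LinearMap.trace ℝ E (prj V).toLinearMap = Module.finrank ℝ V := by
  apply LinearMap.IsProj.trace
  constructor
  · intro y; exact prj_mem V y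
  · intro y hy; exact prj_of_mem V hy

theorem exists_split (A : E →ₗ[ℝ] E) (hsym : A.IsSymmetric) (c : ℝ)
    (hq : ∀ y, A (A y) = y + c • A y) :
    ∃ (t : ℝ) (V : Submodule ℝ E), 0 < t ∧ c = t - t⁻¹ ∧
      (∀ y, A y = t • prj V y - t⁻¹ • prj Vᗮ y) ∧
      LinearMap.trace ℝ E A = t * Module.finrank ℝ V - t⁻¹ * Module.finrank ℝ Vᗮ := by
  set t : ℝ := (c + √(c ^ 2 + 4)) / 2 with ht
  have hsq : √(c ^ 2 + 4) ^ 2 = c ^ 2 + 4 := Real.sq_sqrt (by positivity)
  have hs0 : 0 ≤ √(c ^ 2 + 4) := Real.sqrt_nonneg _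
  have htpos : 0 < t := by
    have : -c < √(c ^ 2 + 4) := by
      apply Real.lt_sqrt_of_sq_lt
      nlinarith
    rw [ht]; linarith
  have htq : t ^ 2 = 1 + c * t := by rw [ht]; nlinarith
  have hc : c = t - t⁻¹ := by
    field_simp
    linarith
  set V : Submodule ℝ E := LinearMap.ker (A - t • LinearMap.id) with hV
  have hmemV : ∀ y, y ∈ V ↔ A y = t • y := by
    intro y
    rw [hV, LinearMap.mem_ker, LinearMap.sub_apply, LinearMap.smul_apply, LinearMap.id_apply,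
      sub_eq_zero]
  have hd : t + t⁻¹ ≠ 0 := by positivity
  have hprj : ∀ y, prj V y = (t + t⁻¹)⁻¹ • (A y + t⁻¹ • y) := by
    intro y
    apply Submodule.eq_starProjection_of_mem_orthogonal
    · apply Submodule.smul_mem
      rw [hmemV, map_add, map_smul, hq, smul_add, smul_smul, mul_inv_cancel₀ htpos.ne', one_smul]
      have : c • A y + t⁻¹ • A y = t • A y := by
        rw [← add_smul]; congr 1; rw [hc]; ring
      rw [← this]; abel
    · rw [Submodule.mem_orthogonal]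
      intro v hv
      have hv' := (hmemV v).mp hv
      have e1 : inner ℝ v (A y) = t * inner ℝ v y := by
        rw [← hsym v y, hv', inner_smul_left]; simp
      rw [inner_sub_right, inner_smul_right, inner_add_right, inner_smul_right, e1]
      field_simp
      ring
  have hprj' : ∀ y, prj Vᗮ y = y - (t + t⁻¹)⁻¹ • (A y + t⁻¹ • y) := by
    intro y
    rw [← hprj, eq_sub_iff_add_eq, add_comm]; exact prj_add V y
  have hA : ∀ y, A y = t • prj V y - t⁻¹ • prj Vᗮ y := by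
    intro y
    rw [hprj', hprj, smul_sub, smul_smul, smul_smul]
    have e1 : t * (t + t⁻¹)⁻¹ + t⁻¹ * (t + t⁻¹)⁻¹ = 1 := by
      rw [← add_mul, mul_inv_cancel₀ hd]
    calc A y = (t * (t + t⁻¹)⁻¹ + t⁻¹ * (t + t⁻¹)⁻¹) • (A y + t⁻¹ • y) - t⁻¹ • y := by
          rw [e1, one_smul]; abel
      _ = _ := by rw [add_smul]; abel
  refine ⟨t, V, htpos, hc, hA, ?_⟩
  have hA' : A = t • (prj V).toLinearMap - t⁻¹ • (prj Vᗮ).toLinearMap := by
    ext y; simpa using hA y
  conv_lhs => rw [hA']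
  rw [map_sub, map_smul, map_smul, trace_prj, trace_prj]
  simp

/-- dimensions and radii -/
theorem split_data (A : E →ₗ[ℝ] E) (hsym : A.IsSymmetric) (c : ℝ)
    (hq : ∀ y, A (A y) = y + c • A y) (htr : LinearMap.trace ℝ E A = c) {m : ℕ} (hm : 1 ≤ m)
    (hdim : m + 2 = Module.finrank ℝ E) :
    ∃ (k l : ℕ) (V : Submodule ℝ E), 1 ≤ k ∧ 1 ≤ l ∧ k + l = m ∧
      Module.finrank ℝ V = k + 1 ∧ Module.finrank ℝ Vᗮ = l + 1 ∧
      ∀ x : E, ‖x‖ = 1 → inner ℝ (A x) x = 0 →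
        ‖prj V x‖ ^ 2 = (k : ℝ) / m ∧ ‖prj Vᗮ x‖ ^ 2 = (l : ℝ) / m := by
  obtain ⟨t, V, ht, hc, hA, htrA⟩ := exists_split A hsym c hq
  have hsum : Module.finrank ℝ V + Module.finrank ℝ Vᗮ = m + 2 := by
    rw [hdim]; exact V.finrank_add_finrank_orthogonal
  have h1 : t * (Module.finrank ℝ V : ℝ) - t⁻¹ * (Module.finrank ℝ Vᗮ : ℝ) = t - t⁻¹ := by
    rw [← htrA, htr, hc]
  have h2 : t ^ 2 * ((Module.finrank ℝ V : ℝ) - 1) = (Module.finrank ℝ Vᗮ : ℝ) - 1 := by
    field_simp at h1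
    linarith
  have hK : 2 ≤ Module.finrank ℝ V := by
    by_contra hlt
    have : Module.finrank ℝ V = 0 ∨ Module.finrank ℝ V = 1 := by omega
    rcases this with h0 | h0
    · have hL : Module.finrank ℝ Vᗮ = m + 2 := by omega
      rw [h0, hL] at h2
      push_cast at h2
      have : (0 : ℝ) ≤ m := by positivity
      nlinarith [sq_nonneg t]
    · have hL : Module.finrank ℝ Vᗮ = m + 1 := by omega
      rw [h0, hL] at h2
      push_cast at h2
      have : (1 : ℝ) ≤ m := by exact_mod_cast hm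
      nlinarith
  have hKr : (2 : ℝ) ≤ Module.finrank ℝ V := by exact_mod_cast hK
  have hL : 2 ≤ Module.finrank ℝ Vᗮ := by
    have : (0 : ℝ) < (Module.finrank ℝ Vᗮ : ℝ) - 1 := by
      rw [← h2]
      have : (0 : ℝ) < (Module.finrank ℝ V : ℝ) - 1 := by linarith
      positivity
    have : (1 : ℝ) < (Module.finrank ℝ Vᗮ : ℝ) := by linarith
    exact_mod_cast this
  obtain ⟨k, hk⟩ : ∃ k, Module.finrank ℝ V = k + 1 := ⟨Module.finrank ℝ V - 1, by omega⟩
  obtain ⟨l, hl⟩ : ∃ l, Module.finrank ℝ Vᗮ = l + 1 := ⟨Module.finrank ℝ Vᗮ - 1, by omega⟩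
  refine ⟨k, l, V, by omega, by omega, by omega, hk, hl, ?_⟩
  intro x hx hAx
  rw [hk, hl] at h2
  push_cast at h2
  have hkl : (k : ℝ) + l = m := by
    have : k + l = m := by omega
    exact_mod_cast this
  have hm' : (0 : ℝ) < m := by exact_mod_cast hm
  have hkpos : (0 : ℝ) < k := by
    have : 1 ≤ k := by omega
    exact_mod_cast this
  -- norms
  have e1 : inner ℝ (prj V x) x = ‖prj V x‖ ^ 2 := by
    rw [← real_inner_self_eq_norm_sq, real_inner_comm x, ← inner_prj_prj, real_inner_comm]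
  have e2 : inner ℝ (prj Vᗮ x) x = ‖prj Vᗮ x‖ ^ 2 := by
    rw [← real_inner_self_eq_norm_sq, real_inner_comm x, ← inner_prj_prj, real_inner_comm]
  have e3 : ‖prj V x‖ ^ 2 + ‖prj Vᗮ x‖ ^ 2 = 1 := by
    rw [← e1, ← e2, ← inner_add_left, prj_add, real_inner_self_eq_norm_sq, hx]; norm_num
  have e4 : t * ‖prj V x‖ ^ 2 = t⁻¹ * ‖prj Vᗮ x‖ ^ 2 := by
    rw [hA x, inner_sub_left, inner_smul_left, inner_smul_left, e1, e2] at hAx
    simp only [conj_trivial] at hAx
    linarith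
  have e5 : t ^ 2 * ‖prj V x‖ ^ 2 = ‖prj Vᗮ x‖ ^ 2 := by
    field_simp at e4
    linarith
  have e6 : (t ^ 2 + 1) * ‖prj V x‖ ^ 2 = 1 := by linarith
  have e7 : t ^ 2 * k = l := by linarith
  have e8 : ‖prj V x‖ ^ 2 = (k : ℝ) / m := by
    rw [eq_div_iff hm'.ne', ← hkl]
    have : ‖prj V x‖ ^ 2 * ((k : ℝ) + l) = (k : ℝ) * ((t ^ 2 + 1) * ‖prj V x‖ ^ 2) := by
      rw [← e7]; ring
    rw [this, e6, mul_one]
  refine ⟨e8, ?_⟩
  have e9 : ‖prj Vᗮ x‖ ^ 2 = 1 - (k : ℝ) / m := by linarith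
  rw [e9, ← hkl]
  have : (k : ℝ) + l ≠ 0 := by rw [hkl]; exact hm'.ne'
  field_simp
  ring

end PoolOnto25
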